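import Mathlib

/-!
Flux LYM with swaps.  Product measures `pim w A t` (logistic family), edge fluxes `ent w A x t`.
-/

open Finset

namespace FluxLYM

variable {α : Type*} [Fintype α] [DecidableEq α]

/-- denominators -/
noncomputable def den (w : α → ℝ) (x : α) (t : ℝ) : ℝ := 1 - t + t * w x

/-- partition function -/
noncomputable def ZZ (w : α → ℝ) (t : ℝ) : ℝ := ∏ z, den w z t

/-- weight of a set -/
noncomputable def ww (w : α → ℝ) (A : Finset α) : ℝ := ∏ z ∈ A, w z

/-- product measure -/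
noncomputable def pim (w : α → ℝ) (A : Finset α) (t : ℝ) : ℝ :=
  ww w A * t ^ A.card * (1 - t) ^ (Aᶜ.card) / ZZ w t

/-- flux along the edge from `A.erase x` to `A` (for `x ∈ A`) -/
noncomputable def ent (w : α → ℝ) (A : Finset α) (x : α) (t : ℝ) : ℝ :=
  ww w A * t ^ (A.card - 1) * (1 - t) ^ (Aᶜ.card) / (ZZ w t * den w x t)

lemma den_pos {w : α → ℝ} {x : α} (hw : 0 < w x) {t : ℝ} (h0 : 0 ≤ t) (h1 : t ≤ 1) :
    0 < den w x t := by
  unfold den
  rcases eq_or_lt_of_le h0 with h | h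
  · rw [← h]; norm_num
  · have := mul_pos h hw
    linarith

lemma ZZ_pos {w : α → ℝ} (hw : ∀ x, 0 < w x) {t : ℝ} (h0 : 0 ≤ t) (h1 : t ≤ 1) :
    0 < ZZ w t := Finset.prod_pos fun z _ => den_pos (hw z) h0 h1

lemma ww_pos {w : α → ℝ} (hw : ∀ x, 0 < w x) (A : Finset α) : 0 < ww w A :=
  Finset.prod_pos fun z _ => hw z

lemma pim_nonneg {w : α → ℝ} (hw : ∀ x, 0 < w x) (A : Finset α) {t : ℝ} (h0 : 0 ≤ t)
    (h1 : t ≤ 1) : 0 ≤ pim w A t := by
  unfold pim
  have := ww_pos hw A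
  have := ZZ_pos hw h0 h1
  have h2 : 0 ≤ 1 - t := by linarith
  positivity

lemma ent_nonneg {w : α → ℝ} (hw : ∀ x, 0 < w x) (A : Finset α) (x : α) {t : ℝ} (h0 : 0 ≤ t)
    (h1 : t ≤ 1) : 0 ≤ ent w A x t := by
  unfold ent
  have := ww_pos hw A
  have := ZZ_pos hw h0 h1
  have := den_pos (hw x) h0 h1
  have h2 : 0 ≤ 1 - t := by linarith
  positivity

lemma sum_pim {w : α → ℝ} (hw : ∀ x, 0 < w x) {t : ℝ} (h0 : 0 ≤ t) (h1 : t ≤ 1) :
    ∑ A : Finset α, pim w A t = 1 := by
  have hZ := ZZ_pos hw h0 h1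
  have h : ∑ A : Finset α, ww w A * t ^ A.card * (1 - t) ^ (Aᶜ.card) = ZZ w t := by
    have h2 : ZZ w t = ∏ z : α, (t * w z + (1 - t)) := by
      unfold ZZ den
      exact Finset.prod_congr rfl fun z _ => by ring
    rw [h2, Finset.prod_add, Finset.powerset_univ]
    refine Finset.sum_congr rfl fun A _ => ?_
    rw [Finset.prod_mul_distrib, Finset.prod_const, Finset.prod_const, Finset.compl_eq_univ_sdiff]
    unfold ww
    ring
  unfold pim
  rw [← Finset.sum_div, h, div_self hZ.ne']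

lemma hasDerivAt_den (w : α → ℝ) (x : α) (t : ℝ) :
    HasDerivAt (fun t => den w x t) (w x - 1) t := by
  unfold den
  have h1 : HasDerivAt (fun t : ℝ => 1 - t + t * w x) (-1 + 1 * w x) t :=
    ((hasDerivAt_id' t).const_sub (1 : ℝ)).add ((hasDerivAt_id' t).mul_const (w x))
  exact h1.congr_deriv (by ring)

lemma hasDerivAt_ZZ {w : α → ℝ} (hw : ∀ x, 0 < w x) {t : ℝ} (h0 : 0 ≤ t) (h1 : t ≤ 1) :
    HasDerivAt (fun t => ZZ w t) (ZZ w t * ∑ z, (w z - 1) / den w z t) t := by
  have h := HasDerivAt.fun_finsetProd (u := (Finset.univ : Finset α))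
    (f := fun z t => den w z t) (f' := fun z => w z - 1) (x := t)
    (fun z _ => hasDerivAt_den w z t)
  unfold ZZ
  refine h.congr_deriv ?_
  rw [Finset.mul_sum]
  refine Finset.sum_congr rfl fun z _ => ?_
  have hz := (den_pos (hw z) h0 h1).ne'
  rw [smul_eq_mul, ← Finset.mul_prod_erase Finset.univ (fun z => den w z t) (Finset.mem_univ z)]
  field_simp

lemma hasDerivAt_num (A : Finset α) (c : ℝ) (t : ℝ) :
    HasDerivAt (fun t : ℝ => c * t ^ A.card * (1 - t) ^ (Aᶜ.card))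
      (c * (A.card * t ^ (A.card - 1)) * (1 - t) ^ (Aᶜ.card)
        - c * t ^ A.card * (Aᶜ.card * (1 - t) ^ (Aᶜ.card - 1))) t := by
  have h1 : HasDerivAt (fun t : ℝ => c * t ^ A.card) (c * (A.card * t ^ (A.card - 1))) t := by
    exact (hasDerivAt_pow A.card t).const_mul c
  have h2 : HasDerivAt (fun t : ℝ => (1 - t) ^ (Aᶜ.card))
      (Aᶜ.card * (1 - t) ^ (Aᶜ.card - 1) * (-1)) t := by
    have h3 : HasDerivAt (fun t : ℝ => 1 - t) (-1) t := (hasDerivAt_id' t).const_sub (1 : ℝ)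
    exact h3.fun_pow Aᶜ.card
  exact (h1.fun_mul h2).congr_deriv (by ring)

/-- The derivative of the product measure of a set is inflow minus outflow. -/
lemma hasDerivAt_pim {w : α → ℝ} (hw : ∀ x, 0 < w x) (A : Finset α) {t : ℝ} (h0 : 0 < t)
    (h1 : t < 1) :
    HasDerivAt (fun t => pim w A t)
      (∑ x ∈ A, ent w A x t - ∑ y ∈ Aᶜ, ent w (insert y A) y t) t := by
  have hZ := ZZ_pos hw h0.le h1.le
  have hd : ∀ z, den w z t ≠ 0 := fun z => (den_pos (hw z) h0.le h1.le).ne'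
  have h := (hasDerivAt_num A (ww w A) t).fun_div (hasDerivAt_ZZ hw h0.le h1.le) hZ.ne'
  unfold pim
  refine h.congr_deriv ?_
  symm
  -- rewrite the entry fluxes
  have e1 : ∑ x ∈ A, ent w A x t
      = ww w A / ZZ w t * ((A.card * t ^ (A.card - 1)) * (1 - t) ^ (Aᶜ.card)
        - t ^ A.card * (1 - t) ^ (Aᶜ.card) * ∑ x ∈ A, (w x - 1) / den w x t) := by
    have h2 : ∀ x ∈ A, ent w A x t = ww w A / ZZ w t * (t ^ (A.card - 1) * (1 - t) ^ (Aᶜ.card)
        - t ^ A.card * (1 - t) ^ (Aᶜ.card) * ((w x - 1) / den w x t)) := by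
      intro x hx
      have hc : A.card = (A.card - 1) + 1 := by
        have : 0 < A.card := Finset.card_pos.mpr ⟨x, hx⟩
        omega
      have hc2 : t ^ A.card = t ^ (A.card - 1) * t := by
        conv_lhs => rw [hc]
        exact pow_succ t _
      rw [hc2]
      clear hc2 hc
      unfold ent
      have hdx := hd x
      have hZ' := hZ.ne'
      field_simp
      unfold den
      ring
    rw [Finset.sum_congr rfl h2, ← Finset.mul_sum, Finset.sum_sub_distrib, Finset.sum_const,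
      ← Finset.mul_sum, nsmul_eq_mul]
    ring
  have e2 : ∑ y ∈ Aᶜ, ent w (insert y A) y t
      = ww w A / ZZ w t * (t ^ A.card * (Aᶜ.card * (1 - t) ^ (Aᶜ.card - 1))
        + t ^ A.card * (1 - t) ^ (Aᶜ.card) * ∑ x ∈ Aᶜ, (w x - 1) / den w x t) := by
    have h2 : ∀ y ∈ Aᶜ, ent w (insert y A) y t
        = ww w A / ZZ w t * (t ^ A.card * (1 - t) ^ (Aᶜ.card - 1)
        + t ^ A.card * (1 - t) ^ (Aᶜ.card) * ((w y - 1) / den w y t)) := by
      intro y hy
      have hyA : y ∉ A := Finset.mem_compl.mp hy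
      have hc : Aᶜ.card = (Aᶜ.card - 1) + 1 := by
        have : 0 < Aᶜ.card := Finset.card_pos.mpr ⟨y, hy⟩
        omega
      have hc2 : (1 - t) ^ Aᶜ.card = (1 - t) ^ (Aᶜ.card - 1) * (1 - t) := by
        conv_lhs => rw [hc]
        exact pow_succ _ _
      have hc3 : (insert y A)ᶜ.card = Aᶜ.card - 1 := by
        rw [Finset.compl_insert, Finset.card_erase_of_mem hy]
      have hc4 : (insert y A).card - 1 = A.card := by
        rw [Finset.card_insert_of_notMem hyA]; omega
      have hc5 : ww w (insert y A) = w y * ww w A := by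
        unfold ww
        rw [Finset.prod_insert hyA]
      unfold ent
      rw [hc3, hc4, hc5, hc2]
      clear hc2 hc hc3 hc4 hc5
      have hdx := hd y
      have hZ' := hZ.ne'
      field_simp
      unfold den
      ring
    rw [Finset.sum_congr rfl h2, ← Finset.mul_sum, Finset.sum_add_distrib, Finset.sum_const,
      ← Finset.mul_sum, nsmul_eq_mul]
    ring
  rw [e1, e2, ← Finset.sum_add_sum_compl A (fun x => (w x - 1) / den w x t)]
  have hZ' := hZ.ne'
  field_simp
  ring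

end FluxLYM
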