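import Pool.Agent.FluxLYM.Lower

open Finset

namespace FluxLYM

variable {α : Type*} [Fintype α] [DecidableEq α]

/-- the exponent in the flux LYM inequality -/
noncomputable def expo (θ ψ : α → ℝ) (A : Finset α) : ℝ :=
  (Fintype.card α : ℝ) / (Fintype.card α + 1) * ∑ x ∈ A, θ x - ∑ z, ψ z
    - (A.card : ℝ)⁻¹ * ∑ x ∈ A, ψ x

lemma bad_nonneg (F : Finset (Finset α)) (A : Finset α) : 0 ≤ bad F A := by
  unfold bad; positivity

/-- FLUX LYM WITH SWAPS, explicit form -/
theorem flux_lym_swap (θ ψ : α → ℝ) (hθ : ∑ x, θ x = 0)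
    (hψ : ∀ x, ∀ t : ℝ, 0 ≤ t → t ≤ 1 → 1 - t + t * Real.exp (θ x) ≤ Real.exp (t * θ x + ψ x))
    (η : ℝ) (hη0 : 0 ≤ η) (hη : ∀ x y, θ x - θ y ≤ η) (F : Finset (Finset α))
    (hF : IsAntichain (· ⊆ ·) (F : Set (Finset α))) (hne : ∀ A ∈ F, A.Nonempty) :
    ∑ A ∈ F, ((Fintype.card α).choose A.card : ℝ)⁻¹ * Real.exp (expo θ ψ A)
      * (1 + 1 / 2 * Real.exp (-(2 * η)) * bad F A) ≤ 1 := by
  have hw : ∀ x, 0 < Real.exp (θ x) := fun x => Real.exp_pos _
  have hE : ∀ x y, Real.exp (θ x) ≤ Real.exp η * Real.exp (θ y) := by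
    intro x y
    rw [← Real.exp_add]
    exact Real.exp_le_exp.mpr (by linarith [hη x y])
  have hE1 : 1 ≤ Real.exp η := Real.one_le_exp hη0
  refine le_trans (Finset.sum_le_sum fun A hA => ?_)
    (lym_swap (w := fun x => Real.exp (θ x)) hw hE1 hE F hF)
  have h1 : 1 / (2 * Real.exp η ^ 2) = 1 / 2 * Real.exp (-(2 * η)) := by
    rw [Real.exp_neg, two_mul η, Real.exp_add]
    have := (Real.exp_pos η).ne'
    field_simp
  rw [h1]
  refine mul_le_mul_of_nonneg_right (hit_lower θ ψ hθ hψ A (hne A hA)) ?_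
  have := bad_nonneg F A
  positivity

/-- FLUX LYM, no swaps -/
theorem flux_lym (θ ψ : α → ℝ) (hθ : ∑ x, θ x = 0)
    (hψ : ∀ x, ∀ t : ℝ, 0 ≤ t → t ≤ 1 → 1 - t + t * Real.exp (θ x) ≤ Real.exp (t * θ x + ψ x))
    (F : Finset (Finset α))
    (hF : IsAntichain (· ⊆ ·) (F : Set (Finset α))) (hne : ∀ A ∈ F, A.Nonempty) :
    ∑ A ∈ F, ((Fintype.card α).choose A.card : ℝ)⁻¹ * Real.exp (expo θ ψ A) ≤ 1 := by
  have hw : ∀ x, 0 < Real.exp (θ x) := fun x => Real.exp_pos _
  exact le_trans (Finset.sum_le_sum fun A hA => hit_lower θ ψ hθ hψ A (hne A hA))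
    (lym (w := fun x => Real.exp (θ x)) hw F hF)

/-- Jensen: from a LYM inequality to the logarithm of the size -/
lemma log_card_le (F : Finset (Finset α)) (c : Finset α → ℝ) (hc : ∀ A ∈ F, 0 < c A)
    (hsum : ∑ A ∈ F, c A ≤ 1) :
    (F.card : ℝ) * Real.log F.card + ∑ A ∈ F, Real.log (c A) ≤ 0 := by
  rcases F.eq_empty_or_nonempty with rfl | hne
  · simp
  have hF : (0 : ℝ) < F.card := by exact_mod_cast Finset.card_pos.mpr hne
  have h : ∑ A ∈ F, (Real.log F.card + Real.log (c A)) ≤ ∑ A ∈ F, ((F.card : ℝ) * c A - 1) := by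
    refine Finset.sum_le_sum fun A hA => ?_
    rw [← Real.log_mul hF.ne' (hc A hA).ne']
    exact Real.log_le_sub_one_of_pos (mul_pos hF (hc A hA))
  rw [Finset.sum_add_distrib, Finset.sum_const, nsmul_eq_mul, Finset.sum_sub_distrib,
    ← Finset.mul_sum, Finset.sum_const, nsmul_eq_mul, mul_one] at h
  nlinarith

/-- entropy form of the flux LYM inequality with swaps -/
theorem flux_entropy (θ ψ : α → ℝ) (hθ : ∑ x, θ x = 0)
    (hψ : ∀ x, ∀ t : ℝ, 0 ≤ t → t ≤ 1 → 1 - t + t * Real.exp (θ x) ≤ Real.exp (t * θ x + ψ x))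
    (η : ℝ) (hη0 : 0 ≤ η) (hη : ∀ x y, θ x - θ y ≤ η) (F : Finset (Finset α))
    (hF : IsAntichain (· ⊆ ·) (F : Set (Finset α))) (hne : ∀ A ∈ F, A.Nonempty) :
    (F.card : ℝ) * Real.log F.card + ∑ A ∈ F, (expo θ ψ A
      + Real.log (1 + 1 / 2 * Real.exp (-(2 * η)) * bad F A))
      ≤ ∑ A ∈ F, Real.log ((Fintype.card α).choose A.card) := by
  have hch : ∀ A : Finset α, (0 : ℝ) < ((Fintype.card α).choose A.card : ℕ) := fun A => by
    exact_mod_cast Nat.choose_pos (Finset.card_le_univ A)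
  have hb : ∀ A : Finset α, 0 < 1 + 1 / 2 * Real.exp (-(2 * η)) * bad F A := fun A => by
    have := bad_nonneg F A
    positivity
  have h := log_card_le F (fun A => ((Fintype.card α).choose A.card : ℝ)⁻¹
    * Real.exp (expo θ ψ A) * (1 + 1 / 2 * Real.exp (-(2 * η)) * bad F A))
    (fun A _ => mul_pos (mul_pos (inv_pos.mpr (hch A)) (Real.exp_pos _)) (hb A))
    (flux_lym_swap θ ψ hθ hψ η hη0 hη F hF hne)
  have e : ∀ A ∈ F, Real.log (((Fintype.card α).choose A.card : ℝ)⁻¹
      * Real.exp (expo θ ψ A) * (1 + 1 / 2 * Real.exp (-(2 * η)) * bad F A))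
      = (expo θ ψ A + Real.log (1 + 1 / 2 * Real.exp (-(2 * η)) * bad F A))
        - Real.log ((Fintype.card α).choose A.card) := by
    intro A _
    rw [Real.log_mul (mul_pos (inv_pos.mpr (hch A)) (Real.exp_pos _)).ne' (hb A).ne',
      Real.log_mul (inv_pos.mpr (hch A)).ne' (Real.exp_pos _).ne', Real.log_exp, Real.log_inv]
    ring
  rw [Finset.sum_congr rfl e, Finset.sum_sub_distrib] at h
  linarith

/-! ### Hoeffding's lemma for a Bernoulli variable -/

lemma hoeffding_pos {t : ℝ} (h0 : 0 ≤ t) (h1 : t ≤ 1) (x : ℝ) : 0 < 1 - t + t * Real.exp x := by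
  have := Real.exp_pos x
  rcases eq_or_lt_of_le h0 with h | h
  · rw [← h]; norm_num
  · have := mul_pos h this
    linarith

/-- auxiliary: the mean of the tilted Bernoulli variable is `1/4`-Lipschitz -/
lemma hoeffding_aux {t : ℝ} (h0 : 0 ≤ t) (h1 : t ≤ 1) :
    Monotone (fun x : ℝ => t + x / 4 - t * Real.exp x / (1 - t + t * Real.exp x)) := by
  have hd : ∀ x : ℝ, HasDerivAt
      (fun x : ℝ => t + x / 4 - t * Real.exp x / (1 - t + t * Real.exp x))
      (1 / 4 - (t * Real.exp x * (1 - t + t * Real.exp x) - t * Real.exp x * (t * Real.exp x))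
        / (1 - t + t * Real.exp x) ^ 2) x := by
    intro x
    have hpos := hoeffding_pos h0 h1 x
    have h2 : HasDerivAt (fun x : ℝ => t * Real.exp x) (t * Real.exp x) x :=
      (Real.hasDerivAt_exp x).const_mul t
    have h3 : HasDerivAt (fun x : ℝ => 1 - t + t * Real.exp x) (t * Real.exp x) x :=
      h2.const_add (1 - t)
    have h4 := h2.fun_div h3 hpos.ne'
    have h5 : HasDerivAt (fun x : ℝ => t + x / 4) (1 / 4) x :=
      ((hasDerivAt_id' x).div_const 4).const_add t
    exact h5.fun_sub h4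
  refine monotone_of_deriv_nonneg (fun x => (hd x).differentiableAt) fun x => ?_
  rw [(hd x).deriv]
  have hpos := hoeffding_pos h0 h1 x
  rw [sub_nonneg, div_le_div_iff₀ (by positivity) (by norm_num)]
  set E := t * Real.exp x
  nlinarith [sq_nonneg ((1 - t) - E)]

/-- Hoeffding's lemma -/
theorem hoeffding (x : ℝ) {t : ℝ} (h0 : 0 ≤ t) (h1 : t ≤ 1) :
    1 - t + t * Real.exp x ≤ Real.exp (t * x + x ^ 2 / 8) := by
  have hpos := hoeffding_pos h0 h1
  have hd : ∀ x : ℝ, HasDerivAt
      (fun x : ℝ => t * x + x ^ 2 / 8 - Real.log (1 - t + t * Real.exp x))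
      (t + x / 4 - t * Real.exp x / (1 - t + t * Real.exp x)) x := by
    intro x
    have h2 : HasDerivAt (fun x : ℝ => t * Real.exp x) (t * Real.exp x) x :=
      (Real.hasDerivAt_exp x).const_mul t
    have h3 : HasDerivAt (fun x : ℝ => 1 - t + t * Real.exp x) (t * Real.exp x) x :=
      h2.const_add (1 - t)
    have h4 := h3.log (hpos x).ne'
    have h5 : HasDerivAt (fun x : ℝ => t * x + x ^ 2 / 8) (t + x / 4) x := by
      have h6 : HasDerivAt (fun x : ℝ => x ^ 2) (2 * x) x := by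
        simpa using hasDerivAt_pow 2 x
      have := ((hasDerivAt_id' x).const_mul t).fun_add (h6.div_const 8)
      exact this.congr_deriv (by ring)
    exact h5.fun_sub h4
  have hmono := hoeffding_aux h0 h1
  have hz : t + (0:ℝ) / 4 - t * Real.exp 0 / (1 - t + t * Real.exp 0) = 0 := by
    rw [Real.exp_zero]
    have : 1 - t + t * 1 = 1 := by ring
    rw [this]; ring
  have hf0 : t * 0 + (0:ℝ) ^ 2 / 8 - Real.log (1 - t + t * Real.exp 0) = 0 := by
    rw [Real.exp_zero]
    have : 1 - t + t * 1 = 1 := by ring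
    rw [this, Real.log_one]; ring
  have key : 0 ≤ t * x + x ^ 2 / 8 - Real.log (1 - t + t * Real.exp x) := by
    rcases le_total 0 x with hx | hx
    · have hm : MonotoneOn (fun x : ℝ => t * x + x ^ 2 / 8 - Real.log (1 - t + t * Real.exp x))
          (Set.Ici 0) := by
        refine monotoneOn_of_deriv_nonneg (convex_Ici 0)
          (fun y _ => (hd y).continuousAt.continuousWithinAt)
          (fun y _ => (hd y).differentiableAt.differentiableWithinAt) fun y hy => ?_
        rw [interior_Ici] at hy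
        rw [(hd y).deriv, ← hz]
        exact hmono (le_of_lt hy)
      have := hm (Set.mem_Ici.mpr le_rfl) (Set.mem_Ici.mpr hx) hx
      simp only at this
      rw [hf0] at this
      exact this
    · have hm : AntitoneOn (fun x : ℝ => t * x + x ^ 2 / 8 - Real.log (1 - t + t * Real.exp x))
          (Set.Iic 0) := by
        refine antitoneOn_of_deriv_nonpos (convex_Iic 0)
          (fun y _ => (hd y).continuousAt.continuousWithinAt)
          (fun y _ => (hd y).differentiableAt.differentiableWithinAt) fun y hy => ?_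
        rw [interior_Iic] at hy
        rw [(hd y).deriv, ← hz]
        exact hmono (le_of_lt hy)
      have := hm (Set.mem_Iic.mpr hx) (Set.mem_Iic.mpr le_rfl) hx
      simp only at this
      rw [hf0] at this
      exact this
  calc 1 - t + t * Real.exp x = Real.exp (Real.log (1 - t + t * Real.exp x)) :=
        (Real.exp_log (hpos x)).symm
    _ ≤ _ := Real.exp_le_exp.mpr (by linarith)

end FluxLYM
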