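import Pool.Agent.FluxLYM.Main

open Finset

namespace FluxLYM

variable {α : Type*} [Fintype α] [DecidableEq α]

/-- Beta integral -/
noncomputable def BI (a b : ℕ) : ℝ := ∫ t in (0:ℝ)..1, t ^ a * (1 - t) ^ b

lemma ii_beta (a b : ℕ) :
    IntervalIntegrable (fun t : ℝ => t ^ a * (1 - t) ^ b) MeasureTheory.volume 0 1 := by
  apply Continuous.intervalIntegrable
  fun_prop

lemma BI_rec (a b : ℕ) : ((a : ℝ) + 1) * BI a (b + 1) = ((b : ℝ) + 1) * BI (a + 1) b := by
  have h := intervalIntegral.integral_eq_sub_of_hasDerivAt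
    (f := fun t : ℝ => t ^ (a + 1) * (1 - t) ^ (b + 1))
    (f' := fun t : ℝ => ((a : ℝ) + 1) * (t ^ a * (1 - t) ^ (b + 1))
      - ((b : ℝ) + 1) * (t ^ (a + 1) * (1 - t) ^ b)) (a := 0) (b := 1) ?_ ?_
  · rw [intervalIntegral.integral_sub ((ii_beta a (b + 1)).const_mul _)
      ((ii_beta (a + 1) b).const_mul _), intervalIntegral.integral_const_mul,
      intervalIntegral.integral_const_mul] at h
    simp only [sub_self, sub_zero, ne_eq, Nat.add_eq_zero_iff, one_ne_zero, and_false,
      not_false_eq_true, zero_pow, mul_zero, zero_mul] at h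
    unfold BI
    linarith
  · intro t _
    have h1 : HasDerivAt (fun t : ℝ => t ^ (a + 1)) (((a : ℝ) + 1) * t ^ a) t := by
      have := hasDerivAt_pow (a + 1) t
      refine this.congr_deriv ?_
      push_cast
      simp
    have h3 : HasDerivAt (fun t : ℝ => 1 - t) (-1) t := (hasDerivAt_id' t).const_sub (1 : ℝ)
    have h2 : HasDerivAt (fun t : ℝ => (1 - t) ^ (b + 1)) (-(((b : ℝ) + 1) * (1 - t) ^ b)) t := by
      refine (h3.fun_pow (b + 1)).congr_deriv ?_
      push_cast
      simp
    exact (h1.fun_mul h2).congr_deriv (by ring)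
  · exact ((ii_beta a (b + 1)).const_mul _).sub ((ii_beta (a + 1) b).const_mul _)

lemma BI_eq (a b : ℕ) : BI a b * ((a + b + 1).factorial : ℝ) = (a.factorial : ℝ) * b.factorial := by
  induction b generalizing a with
  | zero =>
    unfold BI
    simp only [pow_zero, mul_one, Nat.add_zero, Nat.factorial_zero, Nat.cast_one]
    rw [integral_pow, Nat.factorial_succ]
    push_cast
    have : (a : ℝ) + 1 ≠ 0 := by positivity
    field_simp
    simp
  | succ b ih =>
    have h := BI_rec a b
    have h2 := ih (a + 1)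
    have e : a + 1 + b + 1 = a + (b + 1) + 1 := by ring
    rw [e, Nat.factorial_succ a] at h2
    rw [Nat.factorial_succ b]
    push_cast at h2 ⊢
    have h3 : ((a : ℝ) + 1) ≠ 0 := by positivity
    have h4 : ((a : ℝ) + 1) * (BI a (b + 1) * ((a + (b + 1) + 1).factorial : ℝ))
        = ((a : ℝ) + 1) * ((a.factorial : ℝ) * (((b : ℝ) + 1) * b.factorial)) := by
      calc ((a : ℝ) + 1) * (BI a (b + 1) * ((a + (b + 1) + 1).factorial : ℝ))
          = (((a : ℝ) + 1) * BI a (b + 1)) * ((a + (b + 1) + 1).factorial : ℝ) := by ring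
        _ = (((b : ℝ) + 1) * BI (a + 1) b) * ((a + (b + 1) + 1).factorial : ℝ) := by rw [h]
        _ = ((b : ℝ) + 1) * (BI (a + 1) b * ((a + (b + 1) + 1).factorial : ℝ)) := by ring
        _ = _ := by rw [h2]; ring
    exact mul_left_cancel₀ h3 h4

/-- lower bound of the hitting probability -/
theorem hit_lower (θ ψ : α → ℝ) (hθ : ∑ x, θ x = 0)
    (hψ : ∀ x, ∀ t : ℝ, 0 ≤ t → t ≤ 1 → 1 - t + t * Real.exp (θ x) ≤ Real.exp (t * θ x + ψ x))
    (A : Finset α) (hA : A.Nonempty) :
    ((Fintype.card α).choose A.card : ℝ)⁻¹ *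
      Real.exp ((Fintype.card α : ℝ) / (Fintype.card α + 1) * ∑ x ∈ A, θ x - ∑ z, ψ z
        - (A.card : ℝ)⁻¹ * ∑ x ∈ A, ψ x) ≤ hit (fun x => Real.exp (θ x)) A := by
  set w : α → ℝ := fun x => Real.exp (θ x) with hw'
  have hw : ∀ x, 0 < w x := fun x => Real.exp_pos _
  have hapos : 0 < A.card := Finset.card_pos.mpr hA
  have ha : (0 : ℝ) < A.card := by exact_mod_cast hapos
  have hcard : A.card + Aᶜ.card = Fintype.card α := Finset.card_add_card_compl A
  set n := Fintype.card α with hn
  set c : ℝ := (A.card : ℝ)⁻¹ * ∑ x ∈ A, θ x with hc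
  set q : ℝ := (A.card : ℝ) / (n + 1) with hq
  set psA : ℝ := (A.card : ℝ)⁻¹ * ∑ x ∈ A, ψ x with hpsA
  set K : ℝ := Real.exp (∑ x ∈ A, θ x - ∑ z, ψ z - psA - q * c) with hK
  have hK0 : 0 < K := Real.exp_pos _
  have hww : ww w A = Real.exp (∑ x ∈ A, θ x) := by
    unfold ww; rw [Real.exp_sum]
  -- pointwise bound
  have hpt : ∀ t : ℝ, 0 ≤ t → t ≤ 1 →
      K * A.card * ((1 + c * q) * (t ^ (A.card - 1) * (1 - t) ^ (Aᶜ.card))
        - c * (t ^ A.card * (1 - t) ^ (Aᶜ.card))) ≤ ∑ x ∈ A, ent w A x t := by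
    intro t h0 h1
    have hZpos := ZZ_pos hw h0 h1
    have hZ : ZZ w t ≤ Real.exp (∑ z, ψ z) := by
      calc ZZ w t ≤ ∏ z, Real.exp (t * θ z + ψ z) :=
            Finset.prod_le_prod (fun z _ => (den_pos (hw z) h0 h1).le) fun z _ => hψ z t h0 h1
        _ = Real.exp (∑ z, ψ z) := by
            rw [← Real.exp_sum, Finset.sum_add_distrib, ← Finset.mul_sum, hθ, mul_zero, zero_add]
    have hsum : A.card * Real.exp (-(t * c + psA)) ≤ ∑ x ∈ A, 1 / den w x t := by
      have h2 : ∀ x ∈ A, Real.exp (-(t * c + psA)) * (1 + ((t * c + psA) - (t * θ x + ψ x)))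
          ≤ 1 / den w x t := by
        intro x _
        have hd := den_pos (hw x) h0 h1
        have h3 : Real.exp (-(t * θ x + ψ x)) ≤ 1 / den w x t := by
          rw [Real.exp_neg, ← one_div]
          exact one_div_le_one_div_of_le hd (hψ x t h0 h1)
        refine le_trans ?_ h3
        have h4 : -(t * θ x + ψ x) = -(t * c + psA) + ((t * c + psA) - (t * θ x + ψ x)) := by ring
        rw [h4, Real.exp_add]
        refine mul_le_mul_of_nonneg_left ?_ (Real.exp_pos _).le
        have := Real.add_one_le_exp ((t * c + psA) - (t * θ x + ψ x))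
        linarith
      refine le_trans (le_of_eq ?_) (Finset.sum_le_sum h2)
      rw [← Finset.mul_sum, Finset.sum_add_distrib, Finset.sum_sub_distrib, Finset.sum_const,
        Finset.sum_const, Finset.sum_add_distrib, ← Finset.mul_sum, nsmul_eq_mul, nsmul_eq_mul]
      have e1 : ∑ x ∈ A, θ x = A.card * c := by
        rw [hc, ← mul_assoc, mul_inv_cancel₀ ha.ne', one_mul]
      have e2 : ∑ x ∈ A, ψ x = A.card * psA := by
        rw [hpsA, ← mul_assoc, mul_inv_cancel₀ ha.ne', one_mul]
      rw [e1, e2]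
      ring
    have hexp : Real.exp (-(q * c)) * (1 + c * q - c * t) ≤ Real.exp (-(t * c)) := by
      have h4 : -(t * c) = -(q * c) + (c * q - c * t) := by ring
      rw [h4, Real.exp_add]
      refine mul_le_mul_of_nonneg_left ?_ (Real.exp_pos _).le
      have := Real.add_one_le_exp (c * q - c * t)
      linarith
    have h2 : 0 ≤ 1 - t := by linarith
    set X : ℝ := t ^ (A.card - 1) * (1 - t) ^ (Aᶜ.card) with hX
    have hX0 : 0 ≤ X := by positivity
    have hXt : t ^ A.card * (1 - t) ^ (Aᶜ.card) = t * X := by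
      have h5 : t ^ A.card = t * t ^ (A.card - 1) := by
        rw [← pow_succ']
        congr 1
        omega
      rw [hX, h5]; ring
    rw [hXt]
    have hentsum : ∑ x ∈ A, ent w A x t = ww w A * X / ZZ w t * ∑ x ∈ A, 1 / den w x t := by
      rw [Finset.mul_sum]
      refine Finset.sum_congr rfl fun x _ => ?_
      have hd := (den_pos (hw x) h0 h1).ne'
      have hz := hZpos.ne'
      unfold ent
      rw [hX]
      field_simp
    rw [hentsum, hww]
    calc K * A.card * ((1 + c * q) * X - c * (t * X))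
        = (Real.exp (∑ x ∈ A, θ x - ∑ z, ψ z - psA) * A.card * X)
            * (Real.exp (-(q * c)) * (1 + c * q - c * t)) := by
          rw [hK]
          have : ∑ x ∈ A, θ x - ∑ z, ψ z - psA - q * c
            = (∑ x ∈ A, θ x - ∑ z, ψ z - psA) + (-(q * c)) := by ring
          rw [this, Real.exp_add]
          ring
      _ ≤ (Real.exp (∑ x ∈ A, θ x - ∑ z, ψ z - psA) * A.card * X) * Real.exp (-(t * c)) :=
          mul_le_mul_of_nonneg_left hexp (by positivity)
      _ = Real.exp (∑ x ∈ A, θ x) * X / Real.exp (∑ z, ψ z)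
            * (A.card * Real.exp (-(t * c + psA))) := by
          have e1 : ∑ x ∈ A, θ x - ∑ z, ψ z - psA
            = ∑ x ∈ A, θ x + (-(∑ z, ψ z)) + (-psA) := by ring
          have e2 : -(t * c + psA) = -(t * c) + -psA := by ring
          rw [e1, e2, Real.exp_add, Real.exp_add, Real.exp_add, Real.exp_neg (∑ z, ψ z)]
          ring
      _ ≤ Real.exp (∑ x ∈ A, θ x) * X / Real.exp (∑ z, ψ z) * ∑ x ∈ A, 1 / den w x t :=
          mul_le_mul_of_nonneg_left hsum (by positivity)
      _ ≤ Real.exp (∑ x ∈ A, θ x) * X / ZZ w t * ∑ x ∈ A, 1 / den w x t := by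
          refine mul_le_mul_of_nonneg_right ?_ ?_
          · exact div_le_div_of_nonneg_left (by positivity) hZpos hZ
          · exact Finset.sum_nonneg fun x _ => (one_div_pos.mpr (den_pos (hw x) h0 h1)).le
  -- integrate
  have hint : ∫ t in (0:ℝ)..1, K * A.card *
      ((1 + c * q) * (t ^ (A.card - 1) * (1 - t) ^ (Aᶜ.card))
        - c * (t ^ A.card * (1 - t) ^ (Aᶜ.card)))
      = K * A.card * ((1 + c * q) * BI (A.card - 1) Aᶜ.card - c * BI A.card Aᶜ.card) := by
    rw [intervalIntegral.integral_const_mul, intervalIntegral.integral_sub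
      ((ii_beta _ _).const_mul _) ((ii_beta _ _).const_mul _), intervalIntegral.integral_const_mul,
      intervalIntegral.integral_const_mul]
    rfl
  have hhit : ∫ t in (0:ℝ)..1, ∑ x ∈ A, ent w A x t = hit w A := by
    unfold hit IE
    exact intervalIntegral.integral_finsetSum fun x _ => ii_ent hw A x
  have hmono : K * A.card * ((1 + c * q) * BI (A.card - 1) Aᶜ.card - c * BI A.card Aᶜ.card)
      ≤ hit w A := by
    rw [← hint, ← hhit]
    refine intervalIntegral.integral_mono_on zero_le_one ?_ ?_ ?_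
    · exact (((ii_beta _ _).const_mul _).sub ((ii_beta _ _).const_mul _)).const_mul _
    · exact ii_sum A (fun x t => ent w A x t) fun x _ => ii_ent hw A x
    · rintro t ⟨h0, h1⟩
      exact hpt t h0 h1
  -- the Beta integrals
  have hb1 := BI_eq (A.card - 1) Aᶜ.card
  have hb2 := BI_eq A.card Aᶜ.card
  have e1 : A.card - 1 + Aᶜ.card + 1 = n := by omega
  have e2 : A.card + Aᶜ.card + 1 = n + 1 := by omega
  rw [e1] at hb1
  rw [e2, Nat.factorial_succ] at hb2
  have hfa : (A.card.factorial : ℝ) = A.card * ((A.card - 1).factorial : ℝ) := by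
    have : A.card = (A.card - 1) + 1 := by omega
    conv_lhs => rw [this, Nat.factorial_succ]
    push_cast [Nat.cast_sub hapos]
    ring
  have hnf : (0 : ℝ) < (n.factorial : ℝ) := by exact_mod_cast n.factorial_pos
  have hn1 : (0 : ℝ) < (n : ℝ) + 1 := by positivity
  have hB1 : BI (A.card - 1) Aᶜ.card
      = ((A.card - 1).factorial : ℝ) * (Aᶜ.card.factorial : ℝ) / n.factorial := by
    rw [eq_div_iff hnf.ne']; exact hb1
  have hB2 : BI A.card Aᶜ.card = q * BI (A.card - 1) Aᶜ.card := by
    rw [hB1, hq]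
    push_cast at hb2
    rw [hfa] at hb2
    field_simp
    linarith
  have hch : ((n.choose A.card : ℕ) : ℝ)⁻¹ = A.card * BI (A.card - 1) Aᶜ.card := by
    have h5 := Nat.choose_mul_factorial_mul_factorial (n := n) (k := A.card) (by omega)
    have h6 : n - A.card = Aᶜ.card := by omega
    rw [h6] at h5
    have h7 : ((n.choose A.card : ℕ) : ℝ) * (A.card.factorial : ℝ) * (Aᶜ.card.factorial : ℝ)
        = n.factorial := by exact_mod_cast h5
    have h8 : (0 : ℝ) < (n.choose A.card : ℕ) := by
      exact_mod_cast Nat.choose_pos (by omega : A.card ≤ n)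
    rw [hB1, inv_eq_one_div, div_eq_iff h8.ne']
    rw [hfa] at h7
    field_simp
    linarith
  refine le_trans (le_of_eq ?_) hmono
  rw [hB2, hch, hK]
  have e5 : (n : ℝ) / (n + 1) * ∑ x ∈ A, θ x - ∑ z, ψ z - psA
      = ∑ x ∈ A, θ x - ∑ z, ψ z - psA - q * c := by
    have e6 : q * c = (∑ x ∈ A, θ x) / (n + 1) := by
      rw [hq, hc]; field_simp
    rw [e6]
    field_simp
    ring
  rw [e5]
  ring

end FluxLYM
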