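import Pool.Agent.FluxLYM.Swap

open Finset

namespace FluxLYM

variable {α : Type*} [Fintype α] [DecidableEq α]

/-- bad swaps which stay in the up-closure -/
def bad1 (F : Finset (Finset α)) (A : Finset α) : Finset (α × α) :=
  Finset.univ.filter fun p => p.1 ∈ A ∧ p.2 ∉ A ∧ insert p.2 (A.erase p.1) ∈ upc F ∧
    insert p.2 (A.erase p.1) ∉ F

/-- bad swaps which leave the up-closure -/
def bad2 (F : Finset (Finset α)) (A : Finset α) : Finset (α × α) :=
  Finset.univ.filter fun p => p.1 ∈ A ∧ p.2 ∉ A ∧ insert p.2 (A.erase p.1) ∉ upc F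

lemma card_bad (F : Finset (Finset α)) (A : Finset α) :
    (badSet F A).card = (bad1 F A).card + (bad2 F A).card := by
  rw [← Finset.card_union_of_disjoint]
  · congr 1
    ext p
    simp only [badSet, bad1, bad2, Finset.mem_union, Finset.mem_filter, Finset.mem_univ, true_and]
    constructor
    · rintro ⟨h1, h2, h3⟩
      by_cases h : insert p.2 (A.erase p.1) ∈ upc F
      · exact Or.inl ⟨h1, h2, h, h3⟩
      · exact Or.inr ⟨h1, h2, h⟩
    · rintro (⟨h1, h2, _, h3⟩ | ⟨h1, h2, h3⟩)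
      · exact ⟨h1, h2, h3⟩
      · exact ⟨h1, h2, fun h => h3 (subset_upc h)⟩
  · rw [Finset.disjoint_left]
    intro p hp hq
    simp only [bad1, bad2, Finset.mem_filter, Finset.mem_univ, true_and] at hp hq
    exact hq.2.2 hp.2.2.1

lemma case1 {w : α → ℝ} (hw : ∀ x, 0 < w x) {E : ℝ} (hE0 : 0 ≤ E) (hE : ∀ x y, w x ≤ E * w y)
    (F : Finset (Finset α)) (hF : IsAntichain (· ⊆ ·) (F : Set (Finset α))) {t : ℝ}
    (h0 : 0 ≤ t) (h1 : t ≤ 1) :
    ∑ A ∈ F, ∑ p ∈ bad1 F A, ent w A p.1 t / (Aᶜ.card : ℝ) ≤ E * miss w F t := by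
  have step : ∑ A ∈ F, ∑ p ∈ bad1 F A, ent w A p.1 t / (Aᶜ.card : ℝ)
      ≤ ∑ B ∈ upc F \ F, ∑ q ∈ (B.filter fun y => B.erase y ∉ upc F) ×ˢ Bᶜ,
        E * ent w B q.1 t / (Bᶜ.card : ℝ) := by
    rw [Finset.sum_sigma', Finset.sum_sigma']
    refine sum_le_sum_inj _ _
      (fun s => ⟨insert s.2.2 (s.1.erase s.2.1), (s.2.2, s.2.1)⟩) ?_ ?_ _ _ ?_ ?_
    · rintro ⟨A, x, y⟩ hs
      simp only [Finset.mem_sigma, bad1, Finset.mem_filter, Finset.mem_univ, true_and] at hs
      obtain ⟨hA, hx, hy, hU, hnF⟩ := hs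
      have hyA : y ∉ A.erase x := fun h => hy (Finset.mem_of_mem_erase h)
      simp only [Finset.mem_sigma, Finset.mem_sdiff, Finset.mem_product, Finset.mem_filter,
        Finset.mem_compl, Finset.mem_insert]
      refine ⟨⟨hU, hnF⟩, ⟨Or.inl trivial, ?_⟩, ?_⟩
      · rw [Finset.erase_insert hyA]
        exact erase_notMem_upc hF hA hx
      · rintro (h | h)
        · exact hy (h ▸ hx)
        · exact (Finset.notMem_erase x A) h
    · rintro ⟨A, x, y⟩ hs ⟨A', x', y'⟩ hs' heq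
      simp only [Finset.coe_sigma, Set.mem_sigma_iff, Finset.mem_coe, bad1, Finset.mem_filter,
        Finset.mem_univ, true_and] at hs hs'
      simp only [Sigma.mk.injEq, heq_eq_eq, Prod.mk.injEq] at heq
      obtain ⟨h1, h2, h3⟩ := heq
      subst h2 h3
      have hy1 : y ∉ A.erase x := fun h => hs.2.2.1 (Finset.mem_of_mem_erase h)
      have hy2 : y ∉ A'.erase x := fun h => hs'.2.2.1 (Finset.mem_of_mem_erase h)
      have h4 : A.erase x = A'.erase x := by
        have := congrArg (fun S => Finset.erase S y) h1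
        simpa only [Finset.erase_insert hy1, Finset.erase_insert hy2] using this
      have h5 : A = A' := by
        rw [← Finset.insert_erase hs.2.1, ← Finset.insert_erase hs'.2.1, h4]
      subst h5
      rfl
    · rintro ⟨A, x, y⟩ hs
      simp only [Finset.mem_sigma, bad1, Finset.mem_filter, Finset.mem_univ, true_and] at hs
      obtain ⟨hA, hx, hy, hU, hnF⟩ := hs
      have hyA : y ∉ A.erase x := fun h => hy (Finset.mem_of_mem_erase h)
      have hc1 : (insert y (A.erase x)).card = A.card := by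
        rw [Finset.card_insert_of_notMem hyA, Finset.card_erase_of_mem hx]
        have : 0 < A.card := Finset.card_pos.mpr ⟨x, hx⟩
        omega
      have hc2 : (insert y (A.erase x))ᶜ.card = Aᶜ.card := by
        rw [Finset.card_compl, Finset.card_compl, hc1]
      simp only [hc2]
      exact div_le_div_of_nonneg_right (ent_swap hw hE A x y hx hy h0 h1) (Nat.cast_nonneg _)
    · rintro ⟨B, q⟩ _
      exact div_nonneg (mul_nonneg hE0 (ent_nonneg hw B q.1 h0 h1)) (Nat.cast_nonneg _)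
  refine step.trans ?_
  unfold miss
  rw [Finset.mul_sum]
  refine Finset.sum_le_sum fun B _ => ?_
  rw [Finset.sum_product, Finset.mul_sum]
  refine Finset.sum_le_sum fun y _ => ?_
  dsimp only
  rw [Finset.sum_const, nsmul_eq_mul]
  have hnn := mul_nonneg hE0 (ent_nonneg hw B y h0 h1)
  rcases Nat.eq_zero_or_pos Bᶜ.card with h | h
  · rw [h]; simpa using hnn
  · have : (0 : ℝ) < Bᶜ.card := by exact_mod_cast h
    rw [mul_div_assoc', mul_comm, mul_div_assoc, div_self this.ne', mul_one]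

lemma case2 {w : α → ℝ} (hw : ∀ x, 0 < w x) {E : ℝ} (hE0 : 0 ≤ E) (hE : ∀ x y, w x ≤ E * w y)
    (F : Finset (Finset α)) (hF : IsAntichain (· ⊆ ·) (F : Set (Finset α))) {t : ℝ}
    (h0 : 0 ≤ t) (h1 : t ≤ 1) :
    ∑ A ∈ F, ∑ p ∈ bad2 F A, ent w (insert p.2 A) p.2 t / (A.card : ℝ) ≤ E * miss w F t := by
  have step : ∑ A ∈ F, ∑ p ∈ bad2 F A, ent w (insert p.2 A) p.2 t / (A.card : ℝ)
      ≤ ∑ B ∈ upc F \ F, ∑ q ∈ ((B.filter fun x => B.erase x ∉ upc F).sigma fun x => B.erase x),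
        E * ent w B q.1 t / ((B.erase q.1).card : ℝ) := by
    rw [Finset.sum_sigma', Finset.sum_sigma']
    refine sum_le_sum_inj _ _
      (fun s => ⟨insert s.2.2 s.1, ⟨s.2.1, s.2.2⟩⟩) ?_ ?_ _ _ ?_ ?_
    · rintro ⟨A, x, y⟩ hs
      simp only [Finset.mem_sigma, bad2, Finset.mem_filter, Finset.mem_univ, true_and] at hs
      obtain ⟨hA, hx, hy, hU⟩ := hs
      have hxy : x ≠ y := fun h => hy (h ▸ hx)
      simp only [Finset.mem_sigma, Finset.mem_sdiff, Finset.mem_filter, Finset.mem_insert,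
        Finset.mem_erase]
      refine ⟨⟨mem_upc.mpr ⟨A, hA, Finset.subset_insert y A⟩, ?_⟩, ⟨Or.inr hx, ?_⟩,
        ⟨hxy.symm, Or.inl trivial⟩⟩
      · intro h
        refine hF hA h ?_ (Finset.subset_insert y A)
        intro h2
        rw [h2] at hy
        exact hy (Finset.mem_insert_self y A)
      · rw [Finset.erase_insert_of_ne hxy.symm]
        exact hU
    · rintro ⟨A, x, y⟩ hs ⟨A', x', y'⟩ hs' heq
      simp only [Finset.coe_sigma, Set.mem_sigma_iff, Finset.mem_coe, bad2, Finset.mem_filter,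
        Finset.mem_univ, true_and] at hs hs'
      simp only [Sigma.mk.injEq, heq_eq_eq] at heq
      obtain ⟨h1, h2, h3⟩ := heq
      subst h2 h3
      have h5 : A = A' := by
        have := congrArg (fun S => Finset.erase S y) h1
        simpa only [Finset.erase_insert hs.2.2.1, Finset.erase_insert hs'.2.2.1] using this
      subst h5
      rfl
    · rintro ⟨A, x, y⟩ hs
      simp only [Finset.mem_sigma, bad2, Finset.mem_filter, Finset.mem_univ, true_and] at hs
      obtain ⟨hA, hx, hy, hU⟩ := hs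
      have hc1 : ((insert y A).erase x).card = A.card := by
        rw [Finset.card_erase_of_mem (Finset.mem_insert_of_mem hx),
          Finset.card_insert_of_notMem hy]
        rfl
      simp only [hc1]
      exact div_le_div_of_nonneg_right (ent_le_ent hw hE (insert y A) y x h0 h1)
        (Nat.cast_nonneg _)
    · rintro ⟨B, q⟩ _
      exact div_nonneg (mul_nonneg hE0 (ent_nonneg hw B q.1 h0 h1)) (Nat.cast_nonneg _)
  refine step.trans ?_
  unfold miss
  rw [Finset.mul_sum]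
  refine Finset.sum_le_sum fun B _ => ?_
  rw [Finset.sum_sigma, Finset.mul_sum]
  refine Finset.sum_le_sum fun y _ => ?_
  dsimp only
  rw [Finset.sum_const, nsmul_eq_mul]
  have hnn := mul_nonneg hE0 (ent_nonneg hw B y h0 h1)
  rcases Nat.eq_zero_or_pos (B.erase y).card with h | h
  · rw [h]; simpa using hnn
  · have : (0 : ℝ) < (B.erase y).card := by exact_mod_cast h
    rw [mul_div_assoc', mul_comm, mul_div_assoc, div_self this.ne', mul_one]

lemma ii_miss {w : α → ℝ} (hw : ∀ x, 0 < w x) (F : Finset (Finset α)) :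
    IntervalIntegrable (fun t => miss w F t) MeasureTheory.volume 0 1 := by
  have h : ∀ B ∈ upc F \ F, IntervalIntegrable
      (fun t => ∑ y ∈ B with B.erase y ∉ upc F, ent w B y t) MeasureTheory.volume 0 1 := by
    intro B _
    exact ii_sum _ (fun y t => ent w B y t) fun y _ => ii_ent hw B y
  exact ii_sum (upc F \ F) (fun B t => ∑ y ∈ B with B.erase y ∉ upc F, ent w B y t) h

/-- hits plus misses are at most one -/
lemma hits_add_miss {w : α → ℝ} (hw : ∀ x, 0 < w x) (F : Finset (Finset α))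
    (hF : IsAntichain (· ⊆ ·) (F : Set (Finset α))) :
    ∑ A ∈ F, hit w A + ∫ t in (0:ℝ)..1, miss w F t ≤ 1 := by
  have h := integral_bflux_le hw (upc F) upc_insert
  have e : ∫ t in (0:ℝ)..1, bflux w (upc F) t
      = ∑ A ∈ F, hit w A + ∫ t in (0:ℝ)..1, miss w F t := by
    have hA : ∀ A ∈ F, IntervalIntegrable (fun t => ∑ x ∈ A, ent w A x t)
        MeasureTheory.volume 0 1 := by
      intro A _
      exact ii_sum A (fun x t => ent w A x t) fun x _ => ii_ent hw A x
    have hAA : IntervalIntegrable (fun t => ∑ A ∈ F, ∑ x ∈ A, ent w A x t)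
        MeasureTheory.volume 0 1 := ii_sum F (fun A t => ∑ x ∈ A, ent w A x t) hA
    simp only [bflux_eq w F hF]
    rw [intervalIntegral.integral_add hAA (ii_miss hw F),
      intervalIntegral.integral_finsetSum hA]
    congr 1
    refine Finset.sum_congr rfl fun A _ => ?_
    unfold hit IE
    exact intervalIntegral.integral_finsetSum fun x _ => ii_ent hw A x
  rw [← e]
  exact h

lemma miss_nonneg {w : α → ℝ} (hw : ∀ x, 0 < w x) (F : Finset (Finset α)) :
    0 ≤ ∫ t in (0:ℝ)..1, miss w F t := by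
  refine intervalIntegral.integral_nonneg zero_le_one ?_
  rintro t ⟨h0, h1⟩
  exact Finset.sum_nonneg fun B _ => Finset.sum_nonneg fun y _ => ent_nonneg hw B y h0 h1

/-- weighted LYM inequality, no swaps -/
theorem lym {w : α → ℝ} (hw : ∀ x, 0 < w x) (F : Finset (Finset α))
    (hF : IsAntichain (· ⊆ ·) (F : Set (Finset α))) : ∑ A ∈ F, hit w A ≤ 1 := by
  have := hits_add_miss hw F hF
  have := miss_nonneg hw F
  linarith

lemma IE_mono {w : α → ℝ} (hw : ∀ x, 0 < w x) {E : ℝ} (A B : Finset α) (x y : α)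
    (h : ∀ t : ℝ, 0 ≤ t → t ≤ 1 → ent w A x t ≤ E * ent w B y t) : IE w A x ≤ E * IE w B y := by
  unfold IE
  rw [← intervalIntegral.integral_const_mul]
  refine intervalIntegral.integral_mono_on zero_le_one (ii_ent hw A x)
    ((ii_ent hw B y).const_mul E) ?_
  rintro t ⟨h0, h1⟩
  exact h t h0 h1

lemma hit_le1 {w : α → ℝ} (hw : ∀ x, 0 < w x) {E : ℝ} (hE : ∀ x y, w x ≤ E * w y)
    (A : Finset α) (x : α) : hit w A ≤ A.card * (E * IE w A x) := by
  unfold hit
  rw [← nsmul_eq_mul, ← Finset.sum_const]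
  exact Finset.sum_le_sum fun z _ => IE_mono hw A A z x fun t h0 h1 => ent_le_ent hw hE A z x h0 h1

lemma hit_le2 {w : α → ℝ} (hw : ∀ x, 0 < w x) {E : ℝ} (hE : ∀ x y, w x ≤ E * w y)
    (A : Finset α) (hA : A.Nonempty) (y : α) (hy : y ∉ A) :
    hit w A ≤ Aᶜ.card * (E * IE w (insert y A) y) := by
  rw [← sum_exit hw A hA ⟨y, Finset.mem_compl.mpr hy⟩, ← nsmul_eq_mul, ← Finset.sum_const]
  exact Finset.sum_le_sum fun z hz => IE_mono hw _ _ z y fun t h0 h1 =>
    ent_exit hw hE A z y (Finset.mem_compl.mp hz) hy h0 h1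

/-- fraction of swaps of `A` which leave `F` -/
noncomputable def bad (F : Finset (Finset α)) (A : Finset α) : ℝ :=
  ((badSet F A).card : ℝ) / ((A.card : ℝ) * (Aᶜ.card : ℝ))

/-- FLUX LYM WITH SWAPS -/
theorem lym_swap {w : α → ℝ} (hw : ∀ x, 0 < w x) {E : ℝ} (hE1 : 1 ≤ E)
    (hE : ∀ x y, w x ≤ E * w y) (F : Finset (Finset α))
    (hF : IsAntichain (· ⊆ ·) (F : Set (Finset α))) :
    ∑ A ∈ F, hit w A * (1 + 1 / (2 * E ^ 2) * bad F A) ≤ 1 := by
  have hE0 : 0 < E := by linarith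
  have hm := hits_add_miss hw F hF
  set M := ∫ t in (0:ℝ)..1, miss w F t with hM
  -- case 1 integrated
  have c1 : ∑ A ∈ F, ∑ p ∈ bad1 F A, IE w A p.1 / (Aᶜ.card : ℝ) ≤ E * M := by
    have hii : ∀ A ∈ F, ∀ p ∈ bad1 F A, IntervalIntegrable
        (fun t => ent w A p.1 t / (Aᶜ.card : ℝ)) MeasureTheory.volume 0 1 :=
      fun A _ p _ => (ii_ent hw A p.1).div_const _
    have hA : ∀ A ∈ F, IntervalIntegrable
        (fun t => ∑ p ∈ bad1 F A, ent w A p.1 t / (Aᶜ.card : ℝ)) MeasureTheory.volume 0 1 :=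
      fun A hA => ii_sum (bad1 F A) (fun p t => ent w A p.1 t / (Aᶜ.card : ℝ)) (hii A hA)
    have hAA : IntervalIntegrable
        (fun t => ∑ A ∈ F, ∑ p ∈ bad1 F A, ent w A p.1 t / (Aᶜ.card : ℝ))
        MeasureTheory.volume 0 1 :=
      ii_sum F (fun A t => ∑ p ∈ bad1 F A, ent w A p.1 t / (Aᶜ.card : ℝ)) hA
    have e : ∫ t in (0:ℝ)..1, ∑ A ∈ F, ∑ p ∈ bad1 F A, ent w A p.1 t / (Aᶜ.card : ℝ)
        = ∑ A ∈ F, ∑ p ∈ bad1 F A, IE w A p.1 / (Aᶜ.card : ℝ) := by
      rw [intervalIntegral.integral_finsetSum hA]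
      refine Finset.sum_congr rfl fun A hA => ?_
      rw [intervalIntegral.integral_finsetSum (hii A hA)]
      refine Finset.sum_congr rfl fun p _ => ?_
      unfold IE
      exact intervalIntegral.integral_div _ _
    rw [← e, hM, ← intervalIntegral.integral_const_mul]
    refine intervalIntegral.integral_mono_on zero_le_one hAA
      ((ii_miss hw F).const_mul E) ?_
    rintro t ⟨h0, h1⟩
    exact case1 hw hE0.le hE F hF h0 h1
  have c2 : ∑ A ∈ F, ∑ p ∈ bad2 F A, IE w (insert p.2 A) p.2 / (A.card : ℝ) ≤ E * M := by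
    have hii : ∀ A ∈ F, ∀ p ∈ bad2 F A, IntervalIntegrable
        (fun t => ent w (insert p.2 A) p.2 t / (A.card : ℝ)) MeasureTheory.volume 0 1 :=
      fun A _ p _ => (ii_ent hw (insert p.2 A) p.2).div_const _
    have hA : ∀ A ∈ F, IntervalIntegrable
        (fun t => ∑ p ∈ bad2 F A, ent w (insert p.2 A) p.2 t / (A.card : ℝ))
        MeasureTheory.volume 0 1 :=
      fun A hA => ii_sum (bad2 F A) (fun p t => ent w (insert p.2 A) p.2 t / (A.card : ℝ))
        (hii A hA)
    have hAA : IntervalIntegrable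
        (fun t => ∑ A ∈ F, ∑ p ∈ bad2 F A, ent w (insert p.2 A) p.2 t / (A.card : ℝ))
        MeasureTheory.volume 0 1 :=
      ii_sum F (fun A t => ∑ p ∈ bad2 F A, ent w (insert p.2 A) p.2 t / (A.card : ℝ)) hA
    have e : ∫ t in (0:ℝ)..1, ∑ A ∈ F, ∑ p ∈ bad2 F A,
          ent w (insert p.2 A) p.2 t / (A.card : ℝ)
        = ∑ A ∈ F, ∑ p ∈ bad2 F A, IE w (insert p.2 A) p.2 / (A.card : ℝ) := by
      rw [intervalIntegral.integral_finsetSum hA]
      refine Finset.sum_congr rfl fun A hA => ?_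
      rw [intervalIntegral.integral_finsetSum (hii A hA)]
      refine Finset.sum_congr rfl fun p _ => ?_
      unfold IE
      exact intervalIntegral.integral_div _ _
    rw [← e, hM, ← intervalIntegral.integral_const_mul]
    refine intervalIntegral.integral_mono_on zero_le_one hAA
      ((ii_miss hw F).const_mul E) ?_
    rintro t ⟨h0, h1⟩
    exact case2 hw hE0.le hE F hF h0 h1
  -- lower bounds
  have l1 : ∑ A ∈ F, hit w A * ((bad1 F A).card / ((A.card : ℝ) * (Aᶜ.card : ℝ))) / E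
      ≤ ∑ A ∈ F, ∑ p ∈ bad1 F A, IE w A p.1 / (Aᶜ.card : ℝ) := by
    refine Finset.sum_le_sum fun A _ => ?_
    have h : ∀ p ∈ bad1 F A, hit w A / ((A.card : ℝ) * (Aᶜ.card : ℝ)) / E
        ≤ IE w A p.1 / (Aᶜ.card : ℝ) := by
      intro p hp
      simp only [bad1, Finset.mem_filter, Finset.mem_univ, true_and] at hp
      have ha : (0 : ℝ) < A.card := by exact_mod_cast Finset.card_pos.mpr ⟨p.1, hp.1⟩
      have hb : (0 : ℝ) < Aᶜ.card := by
        exact_mod_cast Finset.card_pos.mpr ⟨p.2, Finset.mem_compl.mpr hp.2.1⟩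
      have := hit_le1 hw hE A p.1
      rw [div_div, div_le_div_iff₀ (by positivity) hb]
      nlinarith
    calc hit w A * ((bad1 F A).card / ((A.card : ℝ) * (Aᶜ.card : ℝ))) / E
        = ∑ p ∈ bad1 F A, hit w A / ((A.card : ℝ) * (Aᶜ.card : ℝ)) / E := by
          rw [Finset.sum_const, nsmul_eq_mul]; ring
      _ ≤ _ := Finset.sum_le_sum h
  have l2 : ∑ A ∈ F, hit w A * ((bad2 F A).card / ((A.card : ℝ) * (Aᶜ.card : ℝ))) / E
      ≤ ∑ A ∈ F, ∑ p ∈ bad2 F A, IE w (insert p.2 A) p.2 / (A.card : ℝ) := by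
    refine Finset.sum_le_sum fun A _ => ?_
    have h : ∀ p ∈ bad2 F A, hit w A / ((A.card : ℝ) * (Aᶜ.card : ℝ)) / E
        ≤ IE w (insert p.2 A) p.2 / (A.card : ℝ) := by
      intro p hp
      simp only [bad2, Finset.mem_filter, Finset.mem_univ, true_and] at hp
      have ha : (0 : ℝ) < A.card := by exact_mod_cast Finset.card_pos.mpr ⟨p.1, hp.1⟩
      have hb : (0 : ℝ) < Aᶜ.card := by
        exact_mod_cast Finset.card_pos.mpr ⟨p.2, Finset.mem_compl.mpr hp.2.1⟩
      have := hit_le2 hw hE A ⟨p.1, hp.1⟩ p.2 hp.2.1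
      rw [div_div, div_le_div_iff₀ (by positivity) ha]
      nlinarith
    calc hit w A * ((bad2 F A).card / ((A.card : ℝ) * (Aᶜ.card : ℝ))) / E
        = ∑ p ∈ bad2 F A, hit w A / ((A.card : ℝ) * (Aᶜ.card : ℝ)) / E := by
          rw [Finset.sum_const, nsmul_eq_mul]; ring
      _ ≤ _ := Finset.sum_le_sum h
  have hsum : ∑ A ∈ F, hit w A * (1 + 1 / (2 * E ^ 2) * bad F A)
      = ∑ A ∈ F, hit w A + 1 / (2 * E) *
        (∑ A ∈ F, hit w A * ((bad1 F A).card / ((A.card : ℝ) * (Aᶜ.card : ℝ))) / E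
        + ∑ A ∈ F, hit w A * ((bad2 F A).card / ((A.card : ℝ) * (Aᶜ.card : ℝ))) / E) := by
    rw [← Finset.sum_add_distrib, Finset.mul_sum, ← Finset.sum_add_distrib]
    refine Finset.sum_congr rfl fun A _ => ?_
    unfold bad
    rw [card_bad]
    push_cast
    field_simp
  rw [hsum]
  have h3 : 1 / (2 * E) *
        (∑ A ∈ F, hit w A * ((bad1 F A).card / ((A.card : ℝ) * (Aᶜ.card : ℝ))) / E
        + ∑ A ∈ F, hit w A * ((bad2 F A).card / ((A.card : ℝ) * (Aᶜ.card : ℝ))) / E)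
      ≤ 1 / (2 * E) * (E * M + E * M) :=
    mul_le_mul_of_nonneg_left (add_le_add (l1.trans c1) (l2.trans c2)) (by positivity)
  have h4 : 1 / (2 * E) * (E * M + E * M) = M := by field_simp; ring
  linarith

end FluxLYM
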