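import Pool.Agent.FluxLYM.Basic

open Finset

namespace FluxLYM

variable {α : Type*} [Fintype α] [DecidableEq α]

/-- boundary flux into the family `U` -/
noncomputable def bflux (w : α → ℝ) (U : Finset (Finset α)) (t : ℝ) : ℝ :=
  ∑ B ∈ U, ∑ y ∈ B with B.erase y ∉ U, ent w B y t

lemma sum_out (w : α → ℝ) (U : Finset (Finset α)) (hU : ∀ A ∈ U, ∀ y, insert y A ∈ U) (t : ℝ) :
    ∑ A ∈ U, ∑ y ∈ Aᶜ, ent w (insert y A) y t
      = ∑ B ∈ U, ∑ y ∈ B with B.erase y ∈ U, ent w B y t := by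
  rw [Finset.sum_sigma', Finset.sum_sigma']
  refine Finset.sum_bij' (fun p _ => ⟨insert p.2 p.1, p.2⟩) (fun p _ => ⟨p.1.erase p.2, p.2⟩)
    ?_ ?_ ?_ ?_ ?_
  · rintro ⟨A, y⟩ hp
    simp only [Finset.mem_sigma, Finset.mem_compl, Finset.mem_filter] at hp ⊢
    refine ⟨hU A hp.1 y, Finset.mem_insert_self y A, ?_⟩
    rw [Finset.erase_insert hp.2]
    exact hp.1
  · rintro ⟨B, y⟩ hp
    simp only [Finset.mem_sigma, Finset.mem_compl, Finset.mem_filter] at hp ⊢
    exact ⟨hp.2.2, Finset.notMem_erase y B⟩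
  · rintro ⟨A, y⟩ hp
    simp only [Finset.mem_sigma, Finset.mem_compl] at hp
    simp only [Finset.erase_insert hp.2]
  · rintro ⟨B, y⟩ hp
    simp only [Finset.mem_sigma, Finset.mem_filter] at hp
    simp only [Finset.insert_erase hp.2.1]
  · rintro ⟨A, y⟩ hp
    rfl

lemma russo (w : α → ℝ) (U : Finset (Finset α)) (hU : ∀ A ∈ U, ∀ y, insert y A ∈ U) (t : ℝ) :
    ∑ A ∈ U, (∑ x ∈ A, ent w A x t - ∑ y ∈ Aᶜ, ent w (insert y A) y t) = bflux w U t := by
  rw [Finset.sum_sub_distrib, sum_out w U hU t, ← Finset.sum_sub_distrib]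
  unfold bflux
  refine Finset.sum_congr rfl fun B _ => ?_
  rw [← Finset.sum_filter_add_sum_filter_not B (fun y => B.erase y ∈ U)]
  ring

/-! ### continuity and integrability -/

lemma continuous_den (w : α → ℝ) (x : α) : Continuous (fun t => den w x t) := by
  unfold den; fun_prop

lemma continuous_ZZ (w : α → ℝ) : Continuous (fun t => ZZ w t) := by
  unfold ZZ
  exact continuous_finsetProd _ fun z _ => continuous_den w z

lemma continuousOn_ent {w : α → ℝ} (hw : ∀ x, 0 < w x) (A : Finset α) (x : α) :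
    ContinuousOn (fun t => ent w A x t) (Set.Icc 0 1) := by
  unfold ent
  refine ContinuousOn.div ?_ ?_ ?_
  · fun_prop
  · exact ((continuous_ZZ w).mul (continuous_den w x)).continuousOn
  · rintro t ⟨h0, h1⟩
    exact (mul_pos (ZZ_pos hw h0 h1) (den_pos (hw x) h0 h1)).ne'

lemma continuousOn_pim {w : α → ℝ} (hw : ∀ x, 0 < w x) (A : Finset α) :
    ContinuousOn (fun t => pim w A t) (Set.Icc 0 1) := by
  unfold pim
  refine ContinuousOn.div ?_ ?_ ?_
  · fun_prop
  · exact (continuous_ZZ w).continuousOn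
  · rintro t ⟨h0, h1⟩
    exact (ZZ_pos hw h0 h1).ne'

lemma ii_ent {w : α → ℝ} (hw : ∀ x, 0 < w x) (A : Finset α) (x : α) :
    IntervalIntegrable (fun t => ent w A x t) MeasureTheory.volume 0 1 := by
  apply ContinuousOn.intervalIntegrable
  rw [Set.uIcc_of_le zero_le_one]
  exact continuousOn_ent hw A x

lemma ii_sum {ι : Type*} (s : Finset ι) (f : ι → ℝ → ℝ)
    (h : ∀ i ∈ s, IntervalIntegrable (f i) MeasureTheory.volume 0 1) :
    IntervalIntegrable (fun t => ∑ i ∈ s, f i t) MeasureTheory.volume 0 1 := by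
  classical
  induction s using Finset.induction_on with
  | empty => simp
  | insert a s ha ih =>
    simp only [Finset.sum_insert ha]
    exact (h a (Finset.mem_insert_self a s)).add
      (ih fun i hi => h i (Finset.mem_insert_of_mem hi))

/-- integral of the entry flux -/
noncomputable def IE (w : α → ℝ) (A : Finset α) (x : α) : ℝ := ∫ t in (0:ℝ)..1, ent w A x t

/-- the hitting probability of `A` -/
noncomputable def hit (w : α → ℝ) (A : Finset α) : ℝ := ∑ x ∈ A, IE w A x

lemma IE_nonneg {w : α → ℝ} (hw : ∀ x, 0 < w x) (A : Finset α) (x : α) : 0 ≤ IE w A x := by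
  unfold IE
  refine intervalIntegral.integral_nonneg zero_le_one ?_
  rintro t ⟨h0, h1⟩
  exact ent_nonneg hw A x h0 h1

lemma hit_nonneg {w : α → ℝ} (hw : ∀ x, 0 < w x) (A : Finset α) : 0 ≤ hit w A :=
  Finset.sum_nonneg fun x _ => IE_nonneg hw A x

/-- entry flux equals exit flux, integrated, for `A` neither empty nor full -/
lemma sum_exit {w : α → ℝ} (hw : ∀ x, 0 < w x) (A : Finset α) (h0 : A.Nonempty)
    (h1 : Aᶜ.Nonempty) : ∑ y ∈ Aᶜ, IE w (insert y A) y = hit w A := by
  have hI1 : IntervalIntegrable (fun t => ∑ x ∈ A, ent w A x t) MeasureTheory.volume 0 1 :=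
    ii_sum A (fun x t => ent w A x t) fun x _ => ii_ent hw A x
  have hI2 : IntervalIntegrable (fun t => ∑ y ∈ Aᶜ, ent w (insert y A) y t)
      MeasureTheory.volume 0 1 :=
    ii_sum Aᶜ (fun y t => ent w (insert y A) y t) fun y _ => ii_ent hw (insert y A) y
  have hftc := intervalIntegral.integral_eq_sub_of_hasDerivAt_of_le (f := fun t => pim w A t)
    (f' := fun t => ∑ x ∈ A, ent w A x t - ∑ y ∈ Aᶜ, ent w (insert y A) y t)
    zero_le_one (continuousOn_pim hw A)
    (fun t ht => hasDerivAt_pim hw A ht.1 ht.2) (hI1.sub hI2)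
  rw [intervalIntegral.integral_sub hI1 hI2] at hftc
  have hp1 : pim w A 1 = 0 := by
    unfold pim
    have : 0 < Aᶜ.card := Finset.card_pos.mpr h1
    rw [sub_self, zero_pow this.ne']
    simp
  have hp0 : pim w A 0 = 0 := by
    unfold pim
    have : 0 < A.card := Finset.card_pos.mpr h0
    rw [zero_pow this.ne']
    simp
  simp only [hp1, hp0, sub_self] at hftc
  have e1 : ∫ t in (0:ℝ)..1, ∑ x ∈ A, ent w A x t = hit w A := by
    unfold hit IE
    exact intervalIntegral.integral_finsetSum fun x _ => ii_ent hw A x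
  have e2 : ∫ t in (0:ℝ)..1, ∑ y ∈ Aᶜ, ent w (insert y A) y t
      = ∑ y ∈ Aᶜ, IE w (insert y A) y := by
    unfold IE
    exact intervalIntegral.integral_finsetSum fun y _ => ii_ent hw (insert y A) y
  rw [e1, e2] at hftc
  linarith

/-- total flux into an up-set is at most one -/
lemma integral_bflux_le {w : α → ℝ} (hw : ∀ x, 0 < w x) (U : Finset (Finset α))
    (hU : ∀ A ∈ U, ∀ y, insert y A ∈ U) : ∫ t in (0:ℝ)..1, bflux w U t ≤ 1 := by
  have hI : ∀ A ∈ U, IntervalIntegrable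
      (fun t => ∑ x ∈ A, ent w A x t - ∑ y ∈ Aᶜ, ent w (insert y A) y t)
      MeasureTheory.volume 0 1 := by
    intro A _
    exact (ii_sum A (fun x t => ent w A x t) fun x _ => ii_ent hw A x).sub
      (ii_sum Aᶜ (fun y t => ent w (insert y A) y t) fun y _ => ii_ent hw (insert y A) y)
  have hI2 := ii_sum U
    (fun A t => ∑ x ∈ A, ent w A x t - ∑ y ∈ Aᶜ, ent w (insert y A) y t) hI
  have hftc := intervalIntegral.integral_eq_sub_of_hasDerivAt_of_le
    (f := fun t => ∑ A ∈ U, pim w A t)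
    (f' := fun t => ∑ A ∈ U, (∑ x ∈ A, ent w A x t - ∑ y ∈ Aᶜ, ent w (insert y A) y t))
    zero_le_one (continuousOn_finsetSum _ fun A _ => continuousOn_pim hw A)
    (fun t ht => HasDerivAt.fun_sum fun A _ => hasDerivAt_pim hw A ht.1 ht.2) hI2
  simp only [russo w U hU] at hftc
  rw [hftc]
  have h1 : ∑ A ∈ U, pim w A 1 ≤ 1 := by
    refine le_trans (Finset.sum_le_sum_of_subset_of_nonneg (Finset.subset_univ U)
      fun A _ _ => pim_nonneg hw A zero_le_one le_rfl) ?_
    exact (sum_pim hw zero_le_one le_rfl).le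
  have h0 : 0 ≤ ∑ A ∈ U, pim w A 0 :=
    Finset.sum_nonneg fun A _ => pim_nonneg hw A le_rfl zero_le_one
  linarith

end FluxLYM
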