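import Pool.Agent.FluxLYM.Russo

open Finset

namespace FluxLYM

variable {α : Type*} [Fintype α] [DecidableEq α]

lemma sum_le_sum_inj {ι κ : Type*} [DecidableEq κ] (S1 : Finset ι) (S2 : Finset κ) (φ : ι → κ)
    (hmap : ∀ i ∈ S1, φ i ∈ S2) (hinj : Set.InjOn φ (S1 : Set ι)) (f : ι → ℝ) (g : κ → ℝ)
    (hfg : ∀ i ∈ S1, f i ≤ g (φ i)) (hg : ∀ k ∈ S2, 0 ≤ g k) :
    ∑ i ∈ S1, f i ≤ ∑ k ∈ S2, g k := by
  calc ∑ i ∈ S1, f i ≤ ∑ i ∈ S1, g (φ i) := Finset.sum_le_sum hfg
    _ = ∑ k ∈ S1.image φ, g k := (Finset.sum_image hinj).symm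
    _ ≤ ∑ k ∈ S2, g k := by
        refine Finset.sum_le_sum_of_subset_of_nonneg ?_ fun k hk _ => hg k hk
        intro k hk
        obtain ⟨i, hi, rfl⟩ := Finset.mem_image.mp hk
        exact hmap i hi

/-- the up-closure of a family -/
def upc (F : Finset (Finset α)) : Finset (Finset α) :=
  Finset.univ.filter fun B => ∃ A ∈ F, A ⊆ B

lemma mem_upc {F : Finset (Finset α)} {B : Finset α} : B ∈ upc F ↔ ∃ A ∈ F, A ⊆ B := by
  simp [upc]

lemma upc_insert {F : Finset (Finset α)} : ∀ A ∈ upc F, ∀ y, insert y A ∈ upc F := by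
  intro A hA y
  obtain ⟨C, hC, hCA⟩ := mem_upc.mp hA
  exact mem_upc.mpr ⟨C, hC, hCA.trans (Finset.subset_insert y A)⟩

lemma subset_upc {F : Finset (Finset α)} {A : Finset α} (hA : A ∈ F) : A ∈ upc F :=
  mem_upc.mpr ⟨A, hA, Finset.Subset.refl A⟩

lemma erase_notMem_upc {F : Finset (Finset α)} (hF : IsAntichain (· ⊆ ·) (F : Set (Finset α)))
    {A : Finset α} (hA : A ∈ F) {x : α} (hx : x ∈ A) : A.erase x ∉ upc F := by
  intro h
  obtain ⟨C, hC, hCA⟩ := mem_upc.mp h
  have hne : C ≠ A := by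
    rintro rfl
    exact (Finset.notMem_erase x C) (hCA hx)
  exact hF hC hA hne (hCA.trans (Finset.erase_subset x A))

/-- the number of swaps leaving `F` -/
def badSet (F : Finset (Finset α)) (A : Finset α) : Finset (α × α) :=
  Finset.univ.filter fun p => p.1 ∈ A ∧ p.2 ∉ A ∧ insert p.2 (A.erase p.1) ∉ F

/-- miss flux -/
noncomputable def miss (w : α → ℝ) (F : Finset (Finset α)) (t : ℝ) : ℝ :=
  ∑ B ∈ upc F \ F, ∑ y ∈ B with B.erase y ∉ upc F, ent w B y t

lemma bflux_eq (w : α → ℝ) (F : Finset (Finset α))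
    (hF : IsAntichain (· ⊆ ·) (F : Set (Finset α))) (t : ℝ) :
    bflux w (upc F) t = ∑ A ∈ F, ∑ x ∈ A, ent w A x t + miss w F t := by
  unfold bflux miss
  rw [add_comm, ← Finset.sum_sdiff (fun A hA => subset_upc hA : F ⊆ upc F)]
  congr 1
  refine Finset.sum_congr rfl fun A hA => ?_
  rw [Finset.filter_true_of_mem]
  intro y hy
  exact erase_notMem_upc hF hA hy

lemma den_le {w : α → ℝ} (hw : ∀ x, 0 < w x) {E : ℝ} (hE : ∀ x y, w x ≤ E * w y) (x y : α)
    {t : ℝ} (h0 : 0 ≤ t) (h1 : t ≤ 1) : den w x t ≤ E * den w y t := by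
  have hE1 : 1 ≤ E := by
    have h := hE x x
    have := hw x
    by_contra hcon
    push Not at hcon
    nlinarith
  unfold den
  have := mul_le_mul_of_nonneg_left (hE x y) h0
  nlinarith

lemma wden_le {w : α → ℝ} (hw : ∀ x, 0 < w x) {E : ℝ} (hE : ∀ x y, w x ≤ E * w y) (x y : α)
    {t : ℝ} (h0 : 0 ≤ t) (h1 : t ≤ 1) : w x * den w y t ≤ E * (w y * den w x t) := by
  have hE1 : 1 ≤ E := by
    have h := hE x x
    have := hw x
    by_contra hcon
    push Not at hcon
    nlinarith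
  unfold den
  have h2 : 0 ≤ 1 - t := by linarith
  have h3 := mul_le_mul_of_nonneg_right (hE x y) h2
  have h4 : t * (w x * w y) ≤ E * (t * (w x * w y)) :=
    le_mul_of_one_le_left (mul_nonneg h0 (mul_pos (hw x) (hw y)).le) hE1
  nlinarith

/-- entry fluxes into the same set -/
lemma ent_le_ent {w : α → ℝ} (hw : ∀ x, 0 < w x) {E : ℝ} (hE : ∀ x y, w x ≤ E * w y)
    (A : Finset α) (x y : α) {t : ℝ} (h0 : 0 ≤ t) (h1 : t ≤ 1) :
    ent w A x t ≤ E * ent w A y t := by
  unfold ent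
  have hZ := ZZ_pos hw h0 h1
  have hx := den_pos (hw x) h0 h1
  have hy := den_pos (hw y) h0 h1
  have hW := ww_pos hw A
  have h2 : 0 ≤ 1 - t := by linarith
  set N := ww w A * t ^ (A.card - 1) * (1 - t) ^ (Aᶜ.card) with hN
  have hN0 : 0 ≤ N := by positivity
  rw [mul_div_assoc', div_le_div_iff₀ (mul_pos hZ hx) (mul_pos hZ hy)]
  have := den_le hw hE y x h0 h1
  have h5 : N * ZZ w t * den w y t ≤ N * ZZ w t * (E * den w x t) :=
    mul_le_mul_of_nonneg_left this (mul_nonneg hN0 hZ.le)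
  nlinarith

/-- swap: entry flux of `A` through `x` against entry flux of `A - x + y` through `y` -/
lemma ent_swap {w : α → ℝ} (hw : ∀ x, 0 < w x) {E : ℝ} (hE : ∀ x y, w x ≤ E * w y)
    (A : Finset α) (x y : α) (hx : x ∈ A) (hy : y ∉ A) {t : ℝ} (h0 : 0 ≤ t) (h1 : t ≤ 1) :
    ent w A x t ≤ E * ent w (insert y (A.erase x)) y t := by
  have hyA : y ∉ A.erase x := fun h => hy (Finset.mem_of_mem_erase h)
  have hc1 : (insert y (A.erase x)).card = A.card := by
    rw [Finset.card_insert_of_notMem hyA, Finset.card_erase_of_mem hx]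
    have : 0 < A.card := Finset.card_pos.mpr ⟨x, hx⟩
    omega
  have hc2 : (insert y (A.erase x))ᶜ.card = Aᶜ.card := by
    rw [Finset.card_compl, Finset.card_compl, hc1]
  have hw1 : ww w A = w x * ww w (A.erase x) := by
    unfold ww; rw [Finset.mul_prod_erase A w hx]
  have hw2 : ww w (insert y (A.erase x)) = w y * ww w (A.erase x) := by
    unfold ww; rw [Finset.prod_insert hyA]
  unfold ent
  rw [hc1, hc2, hw1, hw2]
  have hZ := ZZ_pos hw h0 h1
  have hdx := den_pos (hw x) h0 h1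
  have hdy := den_pos (hw y) h0 h1
  have hW := ww_pos hw (A.erase x)
  have h2 : 0 ≤ 1 - t := by linarith
  set N := ww w (A.erase x) * t ^ (A.card - 1) * (1 - t) ^ (Aᶜ.card) with hN
  have hN0 : 0 ≤ N := by positivity
  have e1 : w x * ww w (A.erase x) * t ^ (A.card - 1) * (1 - t) ^ (Aᶜ.card) = w x * N := by
    rw [hN]; ring
  have e2 : w y * ww w (A.erase x) * t ^ (A.card - 1) * (1 - t) ^ (Aᶜ.card) = w y * N := by
    rw [hN]; ring
  rw [e1, e2, mul_div_assoc', div_le_div_iff₀ (mul_pos hZ hdx) (mul_pos hZ hdy)]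
  have := wden_le hw hE x y h0 h1
  have h5 : N * ZZ w t * (w x * den w y t) ≤ N * ZZ w t * (E * (w y * den w x t)) :=
    mul_le_mul_of_nonneg_left this (mul_nonneg hN0 hZ.le)
  nlinarith

/-- exit fluxes of the same set -/
lemma ent_exit {w : α → ℝ} (hw : ∀ x, 0 < w x) {E : ℝ} (hE : ∀ x y, w x ≤ E * w y)
    (A : Finset α) (x y : α) (hx : x ∉ A) (hy : y ∉ A) {t : ℝ} (h0 : 0 ≤ t) (h1 : t ≤ 1) :
    ent w (insert x A) x t ≤ E * ent w (insert y A) y t := by
  have hc1 : (insert y A).card = (insert x A).card := by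
    rw [Finset.card_insert_of_notMem hy, Finset.card_insert_of_notMem hx]
  have hc2 : (insert y A)ᶜ.card = (insert x A)ᶜ.card := by
    rw [Finset.card_compl, Finset.card_compl, hc1]
  have hw1 : ww w (insert x A) = w x * ww w A := by
    unfold ww; rw [Finset.prod_insert hx]
  have hw2 : ww w (insert y A) = w y * ww w A := by
    unfold ww; rw [Finset.prod_insert hy]
  unfold ent
  rw [hc1, hc2, hw1, hw2]
  have hZ := ZZ_pos hw h0 h1
  have hdx := den_pos (hw x) h0 h1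
  have hdy := den_pos (hw y) h0 h1
  have hW := ww_pos hw A
  have h2 : 0 ≤ 1 - t := by linarith
  set N := ww w A * t ^ ((insert x A).card - 1) * (1 - t) ^ ((insert x A)ᶜ.card) with hN
  have hN0 : 0 ≤ N := by positivity
  have e1 : w x * ww w A * t ^ ((insert x A).card - 1) * (1 - t) ^ ((insert x A)ᶜ.card)
      = w x * N := by
    rw [hN]; ring
  have e2 : w y * ww w A * t ^ ((insert x A).card - 1) * (1 - t) ^ ((insert x A)ᶜ.card)
      = w y * N := by
    rw [hN]; ring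
  rw [e1, e2, mul_div_assoc', div_le_div_iff₀ (mul_pos hZ hdx) (mul_pos hZ hdy)]
  have := wden_le hw hE x y h0 h1
  have h5 : N * ZZ w t * (w x * den w y t) ≤ N * ZZ w t * (E * (w y * den w x t)) :=
    mul_le_mul_of_nonneg_left this (mul_nonneg hN0 hZ.le)
  nlinarith

end FluxLYM
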